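import Mathlib
import Pool.Agent.H30.Diam.All
import Pool.Agent.H30.Diam.Wrap

set_option autoImplicit false

/-!
# Diametral overflow in the Kleitman diameter theorem (MP_6327e0_co, Q1)

There is an absolute constant `c` such that for all `u ≥ 1` and `n > c u` every family of subsets
of `[n]` of diameter at most `u` has diametral overflow at most `C(n-2, d-1)` if `u = 2d` and at
most `2 C(n-3, d-1)` if `u = 2d + 1`.
-/

namespace Pool.Agent.Results.MP_6327e0_co.DiametralOverflow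

open Finset

/-- The diameter of a family of subsets of `[n]`: the maximum of `|A △ B|` over its members. -/
def diameter {n : ℕ} (𝓕 : Finset (Finset (Fin n))) : ℕ :=
  (𝓕 ×ˢ 𝓕).sup (fun p => (symmDiff p.1 p.2).card)

/-- `K_A(n, 2d) = {K △ A : |K| ≤ d}`, the Hamming ball of radius `d` centred at `A`. -/
def ball {n : ℕ} (d : ℕ) (A : Finset (Fin n)) : Finset (Finset (Fin n)) :=
  (univ.filter (fun K : Finset (Fin n) => K.card ≤ d)).image (fun K => symmDiff K A)

/-- `K_{A,x}(n, 2d+1) = {K △ A : |K \ {x}| ≤ d}`, the double ball. -/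
def doubleBall {n : ℕ} (d : ℕ) (A : Finset (Fin n)) (x : Fin n) : Finset (Finset (Fin n)) :=
  (univ.filter (fun K : Finset (Fin n) => (K \ {x}).card ≤ d)).image (fun K => symmDiff K A)

/-- The overflow `κ_{2d}(𝓕)`: the minimum over all `A` of `|𝓕 \ K_A(n, 2d)|`. -/
noncomputable def overflowEven {n : ℕ} (d : ℕ) (𝓕 : Finset (Finset (Fin n))) : ℕ :=
  sInf {k | ∃ A : Finset (Fin n), k = (𝓕 \ ball d A).card}

/-- The overflow `κ_{2d+1}(𝓕)`: the minimum over all `A` and `x` of `|𝓕 \ K_{A,x}(n, 2d+1)|`. -/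
noncomputable def overflowOdd {n : ℕ} (d : ℕ) (𝓕 : Finset (Finset (Fin n))) : ℕ :=
  sInf {k | ∃ (A : Finset (Fin n)) (x : Fin n), k = (𝓕 \ doubleBall d A x).card}

theorem mem_ball {n d : ℕ} (A F : Finset (Fin n)) (h : (symmDiff F A).card ≤ d) : F ∈ ball d A := by
  unfold ball
  rw [Finset.mem_image]
  exact ⟨symmDiff F A, Finset.mem_filter.2 ⟨Finset.mem_univ _, h⟩,
    Pool.Agent.H30.Diam.symmDiff_cancel_right F A⟩

theorem mem_doubleBall {n d : ℕ} (A F : Finset (Fin n)) (x : Fin n)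
    (h : (symmDiff F A \ {x}).card ≤ d) : F ∈ doubleBall d A x := by
  unfold doubleBall
  rw [Finset.mem_image]
  exact ⟨symmDiff F A, Finset.mem_filter.2 ⟨Finset.mem_univ _, h⟩,
    Pool.Agent.H30.Diam.symmDiff_cancel_right F A⟩

/-- **Q1 answered: the conjecture is true.** There is an absolute constant `c` such that for all
integers `u ≥ 1` and `n > c u`, every family `𝓕` of subsets of `[n]` of diameter at most `u` has
overflow `κ_u(𝓕) ≤ C(n-2, d-1)` if `u = 2d`, and `κ_u(𝓕) ≤ 2 C(n-3, d-1)` if `u = 2d+1` (for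
`d = 0` the binomial coefficient `C(n-3, -1)` is `0`, and the overflow is `0`). -/
theorem result : ∃ c : ℕ, ∀ u n : ℕ, 1 ≤ u → c * u < n →
    ∀ 𝓕 : Finset (Finset (Fin n)), diameter 𝓕 ≤ u →
      (∀ d : ℕ, u = 2 * d → overflowEven d 𝓕 ≤ (n - 2).choose (d - 1)) ∧
      (∀ d : ℕ, u = 2 * d + 1 →
        overflowOdd d 𝓕 ≤ if d = 0 then 0 else 2 * (n - 3).choose (d - 1)) := by
  obtain ⟨c₁, h₁⟩ := Pool.Agent.H30.Diam.t_final
  obtain ⟨c₂, h₂⟩ := Pool.Agent.H30.Diam.t_finalodd
  refine ⟨c₁ + c₂ + 1, fun u n hu hn 𝓕 hdiam => ⟨fun d hd => ?_, fun d hd => ?_⟩⟩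
  · have hF : ∀ F ∈ 𝓕, ∀ G ∈ 𝓕, (symmDiff F G).card ≤ 2 * d := by
      intro F hF G hG
      rw [← hd]
      refine le_trans ?_ hdiam
      exact Finset.le_sup (f := fun p : Finset (Fin n) × Finset (Fin n) =>
        (symmDiff p.1 p.2).card) (Finset.mk_mem_product hF hG)
    have hn' : c₁ * (2 * d) < n := by
      refine lt_of_le_of_lt ?_ hn
      rw [← hd]
      exact Nat.mul_le_mul_right u (by omega)
    obtain ⟨A, hA⟩ := h₁ n d (by omega) hn' 𝓕 hF
    refine le_trans (Nat.sInf_le ⟨A, rfl⟩) (le_trans (Finset.card_le_card ?_) hA)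
    intro F hF'
    rw [Finset.mem_sdiff] at hF'
    rw [Finset.mem_filter]
    refine ⟨hF'.1, ?_⟩
    by_contra hc
    exact hF'.2 (mem_ball A F (not_lt.1 hc))
  · have hF : ∀ F ∈ 𝓕, ∀ G ∈ 𝓕, (symmDiff F G).card ≤ 2 * d + 1 := by
      intro F hF G hG
      rw [← hd]
      refine le_trans ?_ hdiam
      exact Finset.le_sup (f := fun p : Finset (Fin n) × Finset (Fin n) =>
        (symmDiff p.1 p.2).card) (Finset.mk_mem_product hF hG)
    by_cases hd0 : d = 0
    · subst hd0
      rw [if_pos rfl]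
      obtain ⟨A, x, hA⟩ := Pool.Agent.H30.Diam.odd_zero (by omega) 𝓕 (by simpa using hF)
      refine le_trans (Nat.sInf_le ⟨A, x, rfl⟩) ?_
      rw [Nat.le_zero, Finset.card_eq_zero, Finset.sdiff_eq_empty_iff_subset]
      intro F hF'
      exact mem_doubleBall A F x (by rw [hA F hF']; simp)
    · rw [if_neg hd0]
      have hn' : c₂ * (2 * d + 1) < n := by
        refine lt_of_le_of_lt ?_ hn
        rw [← hd]
        exact Nat.mul_le_mul_right u (by omega)
      obtain ⟨A, x, hA⟩ := h₂ n d (by omega) hn' 𝓕 hF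
      refine le_trans (Nat.sInf_le ⟨A, x, rfl⟩) (le_trans (Finset.card_le_card ?_) hA)
      intro F hF'
      rw [Finset.mem_sdiff] at hF'
      rw [Finset.mem_filter]
      refine ⟨hF'.1, ?_⟩
      by_contra hc
      exact hF'.2 (mem_doubleBall A F x (not_lt.1 hc))

end Pool.Agent.Results.MP_6327e0_co.DiametralOverflow
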